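import Pool.Agent.LibFR75.Defs
import Pool.Agent.LibSD67.B
import Pool.Agent.LibSD67.F1

/-!
# Calculus of correspondences of given degrees
-/

set_option autoImplicit false

namespace SDCK

universe u v

namespace Cycles

variable {T : Cycles.{u, v}}

section calculus

variable {N : Set T.ι} {i j k : T.ι} {r s t : ℤ} {a b z : T.C}

theorem cor_mul (ha : a ∈ T.Cor j k r) (hb : b ∈ T.Cor i j s) (h : r + s = t) :
    a * b ∈ T.Cor i k t := by
  have h1 := T.mul_mem ha hb
  have h2 : (T.dim j : ℤ) + r + (T.dim i + s) - T.dim j = T.dim i + t := by linarith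
  rwa [h2] at h1

theorem cor_star (ha : a ∈ T.Cor i j r) (h : (T.dim i : ℤ) + r = T.dim j + t) :
    star a ∈ T.Cor j i t := by
  have h1 := T.star_mem ha
  rwa [h] at h1

theorem corN_star (ha : a ∈ T.CorN N i j r) (h : (T.dim i : ℤ) + r = T.dim j + t) :
    star a ∈ T.CorN N j i t := by
  have h1 := fac_star ha
  rwa [h] at h1

theorem corN_le (N : Set T.ι) (i j : T.ι) (r : ℤ) : T.CorN N i j r ≤ T.Cor i j r :=
  fac_le N i j _

theorem mul_corN (ha : a ∈ T.Cor j k r) (hb : b ∈ T.CorN N i j s) (h : r + s = t) :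
    a * b ∈ T.CorN N i k t := by
  have h1 := mul_fac ha hb
  have h2 : (T.dim j : ℤ) + r + (T.dim i + s) - T.dim j = T.dim i + t := by linarith
  rwa [h2] at h1

theorem corN_mul (ha : a ∈ T.CorN N j k r) (hb : b ∈ T.Cor i j s) (h : r + s = t) :
    a * b ∈ T.CorN N i k t := by
  have h1 := fac_mul ha hb
  have h2 : (T.dim j : ℤ) + r + (T.dim i + s) - T.dim j = T.dim i + t := by linarith
  rwa [h2] at h1

theorem Δ_cor (i : T.ι) : T.Δ i ∈ T.Cor i i 0 := by
  rw [Cor, add_zero]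
  exact T.Δ_mem i

theorem Δ_cor_mul (ha : a ∈ T.Cor i j r) : T.Δ j * a = a := T.Δ_mul ha

theorem cor_mul_Δ (ha : a ∈ T.Cor i j r) : a * T.Δ i = a := T.mul_Δ ha

theorem cor_congr (ha : a ∈ T.Cor i j r) (hi : i = k) (hr : r = s) : a ∈ T.Cor k j s := by
  subst hi hr
  exact ha

end calculus

/-! ### the Künneth projectors indexed by all integers -/

/-- Künneth projectors, `0` outside `0, …, 2 dim` -/
noncomputable def πZ (T : Cycles.{u, v}) (x : T.ι) (k : ℤ) : T.H :=
  if h : 0 ≤ k ∧ k ≤ 2 * T.dim x then T.π x ⟨k.toNat, by omega⟩ else 0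

theorem πZ_coe (x : T.ι) (k : Fin (2 * T.dim x + 1)) : T.πZ x ((k : ℕ) : ℤ) = T.π x k := by
  have h := k.isLt
  rw [πZ, dif_pos (by omega)]
  congr 1

theorem πZ_out (x : T.ι) {k : ℤ} (hk : k < 0 ∨ 2 * (T.dim x : ℤ) < k) : T.πZ x k = 0 := by
  rw [πZ, dif_neg (by omega)]

theorem πZ_of (x : T.ι) {k : ℤ} (h0 : 0 ≤ k) (h1 : k ≤ 2 * T.dim x) :
    ∃ l : Fin (2 * T.dim x + 1), ((l : ℕ) : ℤ) = k ∧ T.πZ x k = T.π x l :=
  ⟨⟨k.toNat, by omega⟩, by simp only; omega, by rw [πZ, dif_pos ⟨h0, h1⟩]⟩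

theorem πZ_cases (x : T.ι) (k : ℤ) :
    (∃ l : Fin (2 * T.dim x + 1), ((l : ℕ) : ℤ) = k ∧ T.πZ x k = T.π x l) ∨ T.πZ x k = 0 := by
  by_cases h : 0 ≤ k ∧ k ≤ 2 * T.dim x
  · exact Or.inl (πZ_of x h.1 h.2)
  · exact Or.inr (πZ_out x (by omega))

theorem πZ_mul (x : T.ι) (k l : ℤ) : T.πZ x k * T.πZ x l = if k = l then T.πZ x k else 0 := by
  rcases πZ_cases x k with ⟨k', hk', hk⟩ | hk
  · rcases πZ_cases x l with ⟨l', hl', hl⟩ | hl
    · rw [hk, hl, (T.π_ortho x).mul_eq]
      by_cases h : k = l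
      · have h2 : k' = l' := by
          ext
          omega
        rw [if_pos h, if_pos h2]
      · have h2 : k' ≠ l' := fun h3 => h (by rw [← hk', ← hl', h3])
        rw [if_neg h, if_neg h2]
    · rw [hl, mul_zero]
      by_cases h : k = l
      · rw [if_pos h, h, hl]
      · rw [if_neg h]
  · rw [hk, zero_mul, ite_self]

theorem R_Δ_πZ (x : T.ι) (k : ℤ) : T.R (T.Δ x) * T.πZ x k = T.πZ x k := by
  rcases πZ_cases x k with ⟨k', -, hk⟩ | hk
  · rw [hk, ρ_mul_π]
  · rw [hk, mul_zero]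

theorem R_comm {N : Set T.ι} (h : T.Kim N) {i j : T.ι} {r : ℤ} {a : T.C} (ha : a ∈ T.Cor i j r)
    {k l : ℤ} (hkl : l = k + 2 * r) : T.R a * T.πZ i k = T.πZ j l * T.R a := by
  have hdeg : ∀ k l : ℤ, l ≠ k + 2 * r → T.πZ j l * T.R a * T.πZ i k = 0 := by
    intro k l hkl
    rcases πZ_cases i k with ⟨k', hk', hk⟩ | hk
    · rcases πZ_cases j l with ⟨l', hl', hl⟩ | hl
      · rw [hk, hl]
        refine h.deg ha k' l' ?_
        rw [hk', hl']
        intro h1
        exact hkl (by linarith)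
      · rw [hl, zero_mul, zero_mul]
    · rw [hk, mul_zero]
  have hs : ∀ x : T.ι, T.R (T.Δ x) = ∑ k : Fin (2 * T.dim x + 1), T.πZ x ((k : ℕ) : ℤ) := by
    intro x
    rw [← T.π_sum]
    exact Finset.sum_congr rfl fun k _ => (πZ_coe x k).symm
  have h1 : T.R a * T.πZ i k = T.πZ j l * T.R a * T.πZ i k := by
    have h2 : T.R a = T.R (T.Δ j) * T.R a := by rw [← map_mul, Δ_cor_mul ha]
    conv_lhs => rw [h2, hs]
    rw [Finset.sum_mul, Finset.sum_mul]
    by_cases hl : 0 ≤ l ∧ l ≤ 2 * T.dim j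
    · rw [Finset.sum_eq_single (⟨l.toNat, by omega⟩ : Fin (2 * T.dim j + 1))]
      · have h3 : ((l.toNat : ℕ) : ℤ) = l := by omega
        simp only [h3]
      · intro l' _ hl'
        refine hdeg _ _ fun h3 => hl' ?_
        ext
        simp only
        omega
      · intro h3
        exact absurd (Finset.mem_univ _) h3
    · rw [πZ_out j (by omega), zero_mul, zero_mul]
      refine Finset.sum_eq_zero fun l' _ => hdeg _ _ fun h3 => hl ?_
      have := l'.isLt
      omega
  have h2 : T.πZ j l * T.R a = T.πZ j l * T.R a * T.πZ i k := by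
    have h3 : T.R a = T.R a * T.R (T.Δ i) := by rw [← map_mul, cor_mul_Δ ha]
    conv_lhs => rw [h3, hs]
    rw [Finset.mul_sum, Finset.mul_sum]
    by_cases hk : 0 ≤ k ∧ k ≤ 2 * T.dim i
    · rw [Finset.sum_eq_single (⟨k.toNat, by omega⟩ : Fin (2 * T.dim i + 1))]
      · have h3 : ((k.toNat : ℕ) : ℤ) = k := by omega
        simp only [h3]
        rw [mul_assoc]
      · intro k' _ hk'
        rw [← mul_assoc]
        refine hdeg _ _ fun h3 => hk' ?_
        ext
        simp only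
        omega
      · intro h3
        exact absurd (Finset.mem_univ _) h3
    · rw [πZ_out i (by omega), mul_zero]
      refine Finset.sum_eq_zero fun k' _ => ?_
      rw [← mul_assoc]
      refine hdeg _ _ fun h3 => hk ?_
      have := k'.isLt
      omega
  rw [h1, ← h2]

/-- the part of weight `k` of a correspondence through `N` -/
theorem corN_cut {N : Set T.ι} (h : T.Kim N) {x : T.ι} {z : T.C} (hz : z ∈ T.CorN N x x 0)
    (k : ℤ) : ∃ z' ∈ T.CorN N x x 0, T.R z' = T.R z * T.πZ x k := by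
  unfold CorN Fac at hz
  induction hz using Submodule.span_induction with
  | mem z hz1 =>
    obtain ⟨o, ho, r, s, hrs, a, ha, b, hb, rfl⟩ := hz1
    have hb' : b ∈ T.Cor x o (s - T.dim x) := by
      rw [Cor]
      have h2 : (T.dim x : ℤ) + (s - T.dim x) = s := by ring
      rwa [h2]
    have h1 : T.R b * T.πZ x k = T.πZ o (k + 2 * (s - T.dim x)) * T.R b := R_comm h hb' rfl
    rcases πZ_cases o (k + 2 * (s - T.dim x)) with ⟨l, -, hl⟩ | hl
    · obtain ⟨c, hc, hcR⟩ := h.kunneth o ho l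
      refine ⟨a * (c * b), mem_fac ho hrs ha ?_, ?_⟩
      · have h2 := T.mul_mem hc hb
        have h3 : (T.dim o : ℤ) + s - T.dim o = s := by ring
        rwa [h3] at h2
      · rw [map_mul, map_mul, hcR, ← hl, ← h1, map_mul]
        simp only [mul_assoc]
    · refine ⟨0, Submodule.zero_mem _, ?_⟩
      rw [map_zero, map_mul, mul_assoc, h1, hl, zero_mul, mul_zero]
  | zero => exact ⟨0, Submodule.zero_mem _, by rw [map_zero, zero_mul]⟩
  | add a b _ _ iha ihb =>
    obtain ⟨a', ha', hRa⟩ := iha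
    obtain ⟨b', hb', hRb⟩ := ihb
    exact ⟨a' + b', Submodule.add_mem _ ha' hb', by rw [map_add, map_add, hRa, hRb, add_mul]⟩
  | smul q a _ iha =>
    obtain ⟨a', ha', hRa⟩ := iha
    refine ⟨q • a', Submodule.smul_mem _ q ha', ?_⟩
    have hq : ∀ c : T.C, T.R (q • c) = T.R (q • (1 : T.C)) * T.R c := fun c => by
      rw [← map_mul, smul_mul_assoc, one_mul]
    rw [hq a', hq a, hRa, mul_assoc]

private theorem fr_pow {n : ℕ} {z : T.C} {b a : Fin n → T.C} (hz : z = ∑ p, b p * a p)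
    (M : Matrix (Fin n) (Fin n) T.C) (hM : ∀ p q, M p q = a p * z * b q) (k : ℕ) :
    z ^ (2 * k + 1) = ∑ p, ∑ q, b p * (M ^ k) p q * a q := by
  induction k with
  | zero =>
    rw [mul_zero, zero_add, pow_one, pow_zero]
    conv_lhs => rw [hz]
    refine Finset.sum_congr rfl fun p _ => ?_
    rw [Finset.sum_eq_single p]
    · rw [Matrix.one_apply_eq, mul_one]
    · intro q _ hq
      rw [Matrix.one_apply_ne (Ne.symm hq), mul_zero, zero_mul]
    · intro h
      exact absurd (Finset.mem_univ p) h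
  | succ k ih =>
    have h1 : z ^ (2 * (k + 1) + 1) = z ^ (2 * k + 1) * z * z := by
      rw [mul_assoc, ← pow_two, ← pow_add]
      congr 1
    rw [h1, ih, Finset.sum_mul, Finset.sum_mul]
    refine Finset.sum_congr rfl fun p _ => ?_
    have h2 : ∀ q, b p * (M ^ (k + 1)) p q * a q =
        ∑ r, b p * (M ^ k) p r * a r * z * (b q * a q) := by
      intro q
      rw [pow_succ, Matrix.mul_apply, Finset.mul_sum, Finset.sum_mul]
      refine Finset.sum_congr rfl fun r _ => ?_
      rw [hM r q]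
      simp only [mul_assoc]
    rw [Finset.sum_congr rfl fun q _ => h2 q, Finset.sum_comm, Finset.sum_mul, Finset.sum_mul]
    refine Finset.sum_congr rfl fun r _ => ?_
    rw [← Finset.mul_sum, ← hz]

theorem kim_nilpotent {N : Set T.ι} (h : T.Kim N) {x : T.ι} {z : T.C} (hz : z ∈ T.nn N x) :
    IsNilpotent z := by
  obtain ⟨hz1, hz2⟩ : z ∈ T.Fac N x x (T.dim x) ∧ T.R z = 0 := hz
  obtain ⟨n, j, r, s, b, a, hj, hrs, hb, ha, hsum⟩ := exists_fac_sum hz1
  have hzC : z ∈ T.CH x x (T.dim x) := fac_le _ _ _ _ hz1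
  let M : Matrix (Fin n) (Fin n) T.C := Matrix.of fun p q => a p * z * b q
  have hM : ∀ p q, M p q = a p * z * b q := fun p q => rfl
  obtain ⟨K, hK⟩ := h.nil n j s M hj (fun p q => by
      rw [hM]
      have h1 := T.mul_mem (T.mul_mem (ha p) hzC) (hb q)
      have h2 : s p + (T.dim x : ℤ) - T.dim x + r q - T.dim x = T.dim (j q) + s p - s q := by
        have := hrs q
        linarith
      rwa [h2] at h1) (fun p q => by
      rw [hM, map_mul, map_mul, hz2, mul_zero, zero_mul])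
  refine ⟨2 * K + 1, ?_⟩
  rw [fr_pow hsum M hM K, hK]
  refine Finset.sum_eq_zero fun p _ => Finset.sum_eq_zero fun q _ => ?_
  rw [Matrix.zero_apply, mul_zero, zero_mul]

end Cycles

end SDCK
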