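import Pool.Agent.LibSD67.A

/-!
# Frames

The motive of a variety as an orthogonal sum of twists of motives of other varieties, modulo
correspondences that factor through varieties with finite-dimensional motive.
-/

set_option autoImplicit false

namespace SDCK

universe u v

namespace Cycles

variable (T : Cycles.{u, v})

/-- Basic facts on cohomology; `N` is a set of varieties with finite-dimensional motive and algebraic
Künneth projectors. -/
structure Kim (N : Set T.ι) : Prop where
  /-- a correspondence of codimension `c` on `V i × V j` maps cohomology of degree `k` to degree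
  `k + 2 (c - dim V i)` -/
  deg : ∀ {i j : T.ι} {c : ℤ} {a : T.C}, a ∈ T.CH i j c →
    ∀ (k : Fin (2 * T.dim i + 1)) (l : Fin (2 * T.dim j + 1)),
    ((l : ℕ) : ℤ) ≠ (k : ℕ) + 2 * (c - T.dim i) → T.π j l * T.R a * T.π i k = 0
  /-- the Künneth projectors of the members of `N` are algebraic -/
  kunneth : ∀ i ∈ N, ∀ k, ∃ c ∈ T.CH i i (T.dim i), T.R c = T.π i k
  /-- endomorphisms of sums of twists of motives of members of `N` which act as `0` on the
  cohomology are nilpotent -/
  nil : ∀ (n : ℕ) (j : Fin n → T.ι) (s : Fin n → ℤ) (M : Matrix (Fin n) (Fin n) T.C),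
    (∀ a, j a ∈ N) → (∀ a b, M a b ∈ T.CH (j b) (j a) (T.dim (j b) + s a - s b)) →
    (∀ a b, T.R (M a b) = 0) → IsNilpotent M

/-- Correspondences of degree `r` from `V i` to `V j`: morphisms `h(V i) → h(V j)(r)`. -/
def Cor (i j : T.ι) (r : ℤ) : Submodule ℚ T.C := T.CH i j (T.dim i + r)

/-- Correspondences of degree `r` from `V i` to `V j` that factor through members of `N`. -/
def CorN (N : Set T.ι) (i j : T.ι) (r : ℤ) : Submodule ℚ T.C := T.Fac N i j (T.dim i + r)

/-- Modulo correspondences through `N`, the `P k` are orthogonal idempotents, and `P k` acts on the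
cohomology in degree `k` only: a direct summand of the motive of `V y`, modulo `N`, with a
Chow-Künneth decomposition. For instance a Chow-Künneth decomposition of `V y`. -/
structure IsPiece (N : Set T.ι) (y : T.ι) (P : ℤ → T.C) : Prop where
  mem : ∀ k, P k ∈ T.Cor y y 0
  out : ∀ k, k < 0 ∨ 2 * (T.dim y : ℤ) < k → P k = 0
  mul : ∀ k l, P k * P l - (if k = l then P k else 0) ∈ T.CorN N y y 0
  R : ∀ k (l : Fin (2 * T.dim y + 1)), ((l : ℕ) : ℤ) ≠ k → T.R (P k) * T.π y l = 0

/-- The projector onto the direct summand. -/
def tot (y : T.ι) (P : ℤ → T.C) : T.C := ∑ k : Fin (2 * T.dim y + 1), P ((k : ℕ) : ℤ)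

/-- A frame of `V x`: direct summands `M j` of motives `h(y j)` with Chow-Künneth decompositions
`P j`, an involution `s` of the set of indices with `M (s j)` dual to `M j`, and correspondences
`b j : M j (- i j) → h(V x)`, all up to correspondences through `N`, such that the matrix of
intersection forms `star (b j) * b k` is triangular with respect to the levels `l j`, with the
multiples `q j` of the identity at the places `(j, s j)`.
For instance, for a morphism `f : V x → V y` of relative dimension `r`, a Chow-Künneth decomposition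
of `V y` (self-dual if `r` is even), and algebraic classes `ξ j` of codimension `i j` such that the
products `ξ j · ξ k` with `i j + i k = r` have degree `q j` or `0` on the fibres, according to whether
`k = s j`: `b j = ξ j · f^*`, `l j = 2 * i j - r`. -/
structure Frame (N : Set T.ι) (x : T.ι) (m : ℕ) where
  y : Fin m → T.ι
  P : Fin m → ℤ → T.C
  piece : ∀ j, T.IsPiece N (y j) (P j)
  i : Fin m → ℤ
  b : Fin m → T.C
  mem : ∀ j, b j ∈ T.Cor (y j) x (i j)
  b_P : ∀ j, b j * T.tot (y j) (P j) - b j ∈ T.CorN N (y j) x (i j)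
  s : Fin m → Fin m
  s_s : ∀ j, s (s j) = j
  y_s : ∀ j, y (s j) = y j
  P_s : ∀ j k, star (P j k) - P (s j) (2 * T.dim (y j) - k) ∈ T.CorN N (y j) (y j) 0
  i_s : ∀ j, i j + i (s j) = T.dim x - T.dim (y j)
  l : Fin m → ℤ
  l_s : ∀ j, l (s j) = - l j
  q : Fin m → ℚ
  q_ne : ∀ j, q j ≠ 0
  pair : ∀ j, star (b j) * b (s j) - q j • T.tot (y j) (P (s j)) ∈ T.CorN N (y j) (y j) 0
  orth : ∀ j k, l j + l k ≤ 0 → k ≠ s j → star (b j) * b k ∈ T.CorN N (y k) (y j) (i k - i (s j))

variable {T}

/-- Below the middle degree the cohomology of `V x` comes from the frame and from members of `N`: the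
identity on it is given by a correspondence `∑ j, b j * a j + c` with `c` factoring through `N`. -/
def Frame.Spans {N : Set T.ι} {x : T.ι} {m : ℕ} (F : T.Frame N x m) : Prop :=
  ∃ a : Fin m → T.C, (∀ j, a j ∈ T.Cor x (F.y j) (- F.i j)) ∧ ∃ c ∈ T.CorN N x x 0,
    ∀ k : Fin (T.dim x), T.R (∑ j, F.b j * a j + c) * T.π x (low T k) = T.π x (low T k)

end Cycles

end SDCK
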