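import Pool.Agent.LibFR75.Basic

/-!
# The dual frame

`α j` with `α j * b k = δ` up to correspondences through `N`.
-/

set_option autoImplicit false

namespace SDCK

universe u v

namespace Cycles

variable {T : Cycles.{u, v}}

namespace Frame

variable {N : Set T.ι} {x : T.ι} {m : ℕ} (F : T.Frame N x m)

/-- the projectors onto the summands -/
noncomputable def ε (j : Fin m) : T.C := T.tot (F.y j) (F.P j)

theorem ε_mem (j : Fin m) : F.ε j ∈ T.Cor (F.y j) (F.y j) 0 := by
  rw [ε, tot]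
  exact Submodule.sum_mem _ fun k _ => (F.piece j).mem _

theorem P_ε (j : Fin m) (k : ℤ) : F.P j k * F.ε j - F.P j k ∈ T.CorN N (F.y j) (F.y j) 0 := by
  have h1 : F.P j k * F.ε j - F.P j k = ∑ l : Fin (2 * T.dim (F.y j) + 1),
      (F.P j k * F.P j ((l : ℕ) : ℤ) - (if k = ((l : ℕ) : ℤ) then F.P j k else 0)) := by
    rw [Finset.sum_sub_distrib]
    congr 1
    · rw [ε, tot, Finset.mul_sum]
    · by_cases hk : k < 0 ∨ 2 * (T.dim (F.y j) : ℤ) < k
      · rw [(F.piece j).out k hk]
        simp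
      · rw [Finset.sum_eq_single (⟨k.toNat, by omega⟩ : Fin (2 * T.dim (F.y j) + 1))]
        · rw [if_pos]
          simp only
          omega
        · intro l _ hl
          rw [if_neg]
          intro h
          apply hl
          ext
          simp only
          omega
        · intro h
          exact absurd (Finset.mem_univ _) h
  rw [h1]
  exact Submodule.sum_mem _ fun l _ => (F.piece j).mul k _

theorem ε_ε (j : Fin m) : F.ε j * F.ε j - F.ε j ∈ T.CorN N (F.y j) (F.y j) 0 := by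
  have h1 : F.ε j * F.ε j - F.ε j = ∑ k : Fin (2 * T.dim (F.y j) + 1),
      (F.P j ((k : ℕ) : ℤ) * F.ε j - F.P j ((k : ℕ) : ℤ)) := by
    rw [Finset.sum_sub_distrib, ← Finset.sum_mul]
    rfl
  rw [h1]
  exact Submodule.sum_mem _ fun k _ => F.P_ε j _

theorem star_ε (j : Fin m) : star (F.ε j) - F.ε (F.s j) ∈ T.CorN N (F.y j) (F.y j) 0 := by
  have hdim : T.dim (F.y (F.s j)) = T.dim (F.y j) := by rw [F.y_s]
  have h1 : F.ε (F.s j) = ∑ k : Fin (2 * T.dim (F.y j) + 1),
      F.P (F.s j) (2 * T.dim (F.y j) - ((k : ℕ) : ℤ)) := by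
    rw [ε, tot, hdim]
    refine Fintype.sum_equiv Fin.revPerm _ _ fun k => ?_
    congr 1
    rw [Fin.revPerm_apply, Fin.val_rev]
    have := k.isLt
    omega
  have h2 : star (F.ε j) - F.ε (F.s j) = ∑ k : Fin (2 * T.dim (F.y j) + 1),
      (star (F.P j ((k : ℕ) : ℤ)) - F.P (F.s j) (2 * T.dim (F.y j) - ((k : ℕ) : ℤ))) := by
    rw [Finset.sum_sub_distrib, ← star_sum, ← h1]
    rfl
  rw [h2]
  exact Submodule.sum_mem _ fun k _ => F.P_s j _

/-- change of the name of the variety -/
theorem y_cast {j : Fin m} {o : T.ι} {r : ℤ} {z : T.C} (hz : z ∈ T.CorN N (F.y (F.s j)) o r) :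
    z ∈ T.CorN N (F.y j) o r := by
  rwa [F.y_s] at hz

/-- the normalised transposes -/
noncomputable def A (j : Fin m) : T.C := (F.q (F.s j))⁻¹ • star (F.b (F.s j))

theorem A_mem (j : Fin m) : F.A j ∈ T.Cor x (F.y j) (- F.i j) := by
  refine Submodule.smul_mem _ _ ?_
  have h1 := F.mem (F.s j)
  rw [F.y_s] at h1
  refine cor_star h1 ?_
  have h2 := F.i_s j
  linarith

theorem ε_A (j : Fin m) : F.ε j * F.A j - F.A j ∈ T.CorN N x (F.y j) (- F.i j) := by
  have h1 := F.b_P (F.s j)
  have h2 : star (F.b (F.s j) * F.ε (F.s j) - F.b (F.s j)) ∈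
      T.CorN N x (F.y j) (- F.i j) := by
    have h3 := F.y_cast h1
    refine corN_star h3 ?_
    have h2 := F.i_s j
    linarith
  have hst : star (F.b (F.s j)) ∈ T.Cor x (F.y j) (- F.i j) := by
    have h1 := F.mem (F.s j)
    rw [F.y_s] at h1
    refine cor_star h1 ?_
    have h2 := F.i_s j
    linarith
  have h4 : star (F.ε (F.s j)) - F.ε j ∈ T.CorN N (F.y j) (F.y j) 0 := by
    have h5 := F.star_ε (F.s j)
    rw [F.s_s, F.y_s] at h5
    exact h5
  have h6 : F.ε j * F.A j - F.A j = (F.q (F.s j))⁻¹ •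
      (star (F.b (F.s j) * F.ε (F.s j) - F.b (F.s j)) -
        (star (F.ε (F.s j)) - F.ε j) * star (F.b (F.s j))) := by
    rw [A, mul_smul_comm, ← smul_sub, star_sub, star_mul, sub_mul]
    congr 1
    abel
  rw [h6]
  exact Submodule.smul_mem _ _ (Submodule.sub_mem _ h2 (corN_mul h4 hst (zero_add _)))

/-- projector at the place `(j, j)` -/
noncomputable def δ (j k : Fin m) : T.C := if j = k then F.ε j else 0

theorem δ_mem (j k : Fin m) : F.δ j k ∈ T.Cor (F.y k) (F.y j) (F.i k - F.i j) := by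
  rw [δ]
  split_ifs with h
  · subst h
    rw [sub_self]
    exact F.ε_mem j
  · exact Submodule.zero_mem _

theorem δ_self (j : Fin m) : F.δ j j = F.ε j := if_pos rfl

theorem δ_ne {j k : Fin m} (h : j ≠ k) : F.δ j k = 0 := if_neg h

theorem Ab_mem (j k : Fin m) : F.A j * F.b k ∈ T.Cor (F.y k) (F.y j) (F.i k - F.i j) :=
  cor_mul (F.A_mem j) (F.mem k) (by ring)

/-- off the strictly triangular part the matrix `A j * b k` is the identity, up to `N` -/
theorem Ab_sub (j k : Fin m) (h : F.l k ≤ F.l j) :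
    F.A j * F.b k - F.δ j k ∈ T.CorN N (F.y k) (F.y j) (F.i k - F.i j) := by
  have hq := F.q_ne (F.s j)
  by_cases hjk : j = k
  · subst hjk
    have h1 := F.pair (F.s j)
    rw [F.s_s, F.y_s] at h1
    have h2 := Submodule.smul_mem _ (F.q (F.s j))⁻¹ h1
    rw [sub_self]
    convert h2 using 1
    rw [A, δ_self, smul_mul_assoc, smul_sub, smul_smul, inv_mul_cancel₀ hq, one_smul]
    rfl
  · have h1 := F.orth (F.s j) k (by rw [F.l_s]; linarith) (by rw [F.s_s]; exact fun h => hjk h.symm)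
    rw [F.y_s, F.s_s] at h1
    have h2 := Submodule.smul_mem _ (F.q (F.s j))⁻¹ h1
    rw [A, F.δ_ne hjk, sub_zero, smul_mul_assoc]
    exact h2

theorem sum_δ_mul (j : Fin m) (f : Fin m → T.C) : ∑ k, F.δ j k * f k = F.ε j * f j := by
  rw [Finset.sum_eq_single j]
  · rw [δ_self]
  · intro k _ hk
    rw [F.δ_ne (Ne.symm hk), zero_mul]
  · intro h
    exact absurd (Finset.mem_univ j) h

theorem sum_mul_δ (k : Fin m) (f : Fin m → T.C) : ∑ j, f j * F.δ j k = f k * F.ε k := by
  rw [Finset.sum_eq_single k]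
  · rw [δ_self]
  · intro j _ hj
    rw [F.δ_ne hj, mul_zero]
  · intro h
    exact absurd (Finset.mem_univ k) h

theorem δ_ε (j k : Fin m) :
    F.δ j k * F.ε k - F.δ j k ∈ T.CorN N (F.y k) (F.y j) (F.i k - F.i j) := by
  by_cases h : j = k
  · subst h
    rw [δ_self, sub_self]
    exact F.ε_ε j
  · rw [F.δ_ne h, zero_mul, sub_zero]
    exact Submodule.zero_mem _

/-- the strictly triangular part -/
noncomputable def n (j k : Fin m) : T.C := F.A j * F.b k - F.δ j k

theorem n_mem (j k : Fin m) : F.n j k ∈ T.Cor (F.y k) (F.y j) (F.i k - F.i j) :=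
  Submodule.sub_mem _ (F.Ab_mem j k) (F.δ_mem j k)

theorem n_ε (j k : Fin m) :
    F.n j k * F.ε k - F.n j k ∈ T.CorN N (F.y k) (F.y j) (F.i k - F.i j) := by
  have h1 : F.n j k * F.ε k - F.n j k =
      F.A j * (F.b k * F.ε k - F.b k) - (F.δ j k * F.ε k - F.δ j k) := by
    rw [n]
    noncomm_ring
  rw [h1]
  exact Submodule.sub_mem _ (mul_corN (F.A_mem j) (F.b_P k) (by ring)) (F.δ_ε j k)

/-- approximate dual frames -/
theorem exists_dual (n : ℕ) : ∃ α : Fin m → T.C, (∀ j, α j ∈ T.Cor x (F.y j) (- F.i j)) ∧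
    (∀ j k, F.l k ≤ F.l j + n → α j * F.b k - F.δ j k ∈ T.CorN N (F.y k) (F.y j) (F.i k - F.i j)) ∧
    ∃ g : Fin m → Fin m → T.C, (∀ j k, g j k ∈ T.Cor (F.y k) (F.y j) (F.i k - F.i j)) ∧
      (∀ j k, F.l k < F.l j → g j k ∈ T.CorN N (F.y k) (F.y j) (F.i k - F.i j)) ∧
      ∀ j, α j - ∑ k, g j k * F.A k ∈ T.CorN N x (F.y j) (- F.i j) := by
  induction n with
  | zero =>
    refine ⟨F.A, F.A_mem, fun j k h => F.Ab_sub j k (by simpa using h), F.δ, F.δ_mem,
      fun j k h => ?_, fun j => ?_⟩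
    · have h1 : j ≠ k := fun h1 => by rw [h1] at h; exact lt_irrefl _ h
      rw [F.δ_ne h1]
      exact Submodule.zero_mem _
    · rw [F.sum_δ_mul, ← neg_sub]
      exact Submodule.neg_mem _ (F.ε_A j)
  | succ n ih =>
    obtain ⟨α, hα, hαb, g, hg, hgN, hαg⟩ := ih
    have herr : ∀ j k, α j * F.b k - F.δ j k ∈ T.Cor (F.y k) (F.y j) (F.i k - F.i j) :=
      fun j k => Submodule.sub_mem _ (cor_mul (hα j) (F.mem k) (by ring)) (F.δ_mem j k)
    refine ⟨fun j => F.A j - ∑ i, F.n j i * α i, fun j => ?_, fun j k h => ?_,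
      fun j k => F.δ j k - ∑ i, F.n j i * g i k, fun j k => ?_, fun j k h => ?_,
      fun j => ?_⟩
    · exact Submodule.sub_mem _ (F.A_mem j) (Submodule.sum_mem _ fun i _ =>
        cor_mul (F.n_mem j i) (hα i) (by ring))
    · -- the new error
      have h1 : (F.A j - ∑ i, F.n j i * α i) * F.b k - F.δ j k =
          - (F.n j k * F.ε k - F.n j k) - ∑ i, F.n j i * (α i * F.b k - F.δ i k) := by
        have h2 : ∑ i, F.n j i * (α i * F.b k - F.δ i k) =
            ∑ i, F.n j i * (α i * F.b k) - F.n j k * F.ε k := by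
          rw [← F.sum_mul_δ k (fun i => F.n j i), ← Finset.sum_sub_distrib]
          exact Finset.sum_congr rfl fun i _ => mul_sub _ _ _
        have h3 : (∑ i, F.n j i * α i) * F.b k = ∑ i, F.n j i * (α i * F.b k) := by
          rw [Finset.sum_mul]
          exact Finset.sum_congr rfl fun i _ => mul_assoc _ _ _
        have h4 : F.A j * F.b k - F.δ j k = F.n j k := rfl
        rw [sub_mul, h2, h3, sub_right_comm, h4]
        abel
      rw [h1]
      refine Submodule.sub_mem _ (Submodule.neg_mem _ (F.n_ε j k))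
        (Submodule.sum_mem _ fun i _ => ?_)
      by_cases hi : F.l i ≤ F.l j
      · exact corN_mul (F.Ab_sub j i hi) (herr i k) (by ring)
      · refine mul_corN (F.n_mem j i) (hαb i k ?_) (by ring)
        push_cast at h
        linarith
    · exact Submodule.sub_mem _ (F.δ_mem j k) (Submodule.sum_mem _ fun i _ =>
        cor_mul (F.n_mem j i) (hg i k) (by ring))
    · have h1 : j ≠ k := fun h1 => by rw [h1] at h; exact lt_irrefl _ h
      refine Submodule.sub_mem _ ?_ (Submodule.sum_mem _ fun i _ => ?_)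
      · rw [F.δ_ne h1]
        exact Submodule.zero_mem _
      · by_cases hi : F.l i ≤ F.l j
        · exact corN_mul (F.Ab_sub j i hi) (hg i k) (by ring)
        · exact mul_corN (F.n_mem j i) (hgN i k (by linarith)) (by ring)
    · have h2 : ∀ k, (F.δ j k - ∑ i, F.n j i * g i k) * F.A k =
          F.δ j k * F.A k - ∑ i, F.n j i * (g i k * F.A k) := by
        intro k
        rw [sub_mul, Finset.sum_mul]
        simp only [mul_assoc]
      have h3 : (F.A j - ∑ i, F.n j i * α i) - ∑ k, (F.δ j k - ∑ i, F.n j i * g i k) * F.A k =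
          - (F.ε j * F.A j - F.A j) - ∑ i, F.n j i * (α i - ∑ k, g i k * F.A k) := by
        simp only [h2]
        rw [Finset.sum_sub_distrib, F.sum_δ_mul, Finset.sum_comm]
        have h4 : ∑ i, F.n j i * (α i - ∑ k, g i k * F.A k) =
            ∑ i, F.n j i * α i - ∑ i, ∑ k, F.n j i * (g i k * F.A k) := by
          rw [← Finset.sum_sub_distrib]
          refine Finset.sum_congr rfl fun i _ => ?_
          rw [mul_sub, Finset.mul_sum]
        rw [h4]
        abel
      rw [h3]
      exact Submodule.sub_mem _ (Submodule.neg_mem _ (F.ε_A j)) (Submodule.sum_mem _ fun i _ =>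
        mul_corN (F.n_mem j i) (hαg i) (by ring))

/-- The dual frame: `α j * b k = δ` up to `N`, and `α j * star (α k)` factors through `N` if
`l j + l k > 0`. -/
theorem exists_dual' : ∃ α : Fin m → T.C, (∀ j, α j ∈ T.Cor x (F.y j) (- F.i j)) ∧
    (∀ j k, α j * F.b k - F.δ j k ∈ T.CorN N (F.y k) (F.y j) (F.i k - F.i j)) ∧
    ∀ j k, 0 < F.l j + F.l k → α j * star (α k) ∈ T.CorN N (F.y k) (F.y j)
      (F.i (F.s k) - F.i j) := by
  obtain ⟨n, hn⟩ : ∃ n : ℕ, ∀ j k, F.l k ≤ F.l j + n := by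
    refine ⟨∑ j, ∑ k, (F.l k - F.l j).toNat, fun j k => ?_⟩
    have h1 : (F.l k - F.l j).toNat ≤ ∑ j, ∑ k, (F.l k - F.l j).toNat :=
      (Finset.single_le_sum (f := fun k => (F.l k - F.l j).toNat) (fun _ _ => Nat.zero_le _)
        (Finset.mem_univ k)).trans (Finset.single_le_sum
        (f := fun j => ∑ k, (F.l k - F.l j).toNat) (fun _ _ => Nat.zero_le _) (Finset.mem_univ j))
    omega
  obtain ⟨α, hα, hαb, g, hg, hgN, hαg⟩ := F.exists_dual n
  refine ⟨α, hα, fun j k => hαb j k (hn j k), fun j k hjk => ?_⟩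
  have hgs : ∀ k l, star (g k l) ∈ T.Cor (F.y k) (F.y l) (F.i (F.s k) - F.i (F.s l)) := by
    intro k l
    refine cor_star (hg k l) ?_
    have h1 := F.i_s k
    have h2 := F.i_s l
    linarith
  have hstar : star (α k) = star (α k - ∑ l, g k l * F.A l) +
      ∑ l, (F.q (F.s l))⁻¹ • (F.b (F.s l) * star (g k l)) := by
    rw [star_sub, star_sum]
    have h1 : ∑ l, (F.q (F.s l))⁻¹ • (F.b (F.s l) * star (g k l)) =
        ∑ l, star (g k l * F.A l) := by
      refine Finset.sum_congr rfl fun l _ => ?_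
      rw [star_mul, A, star_rat_smul, star_star, smul_mul_assoc]
    rw [h1, sub_add_cancel]
  rw [hstar, mul_add, Finset.mul_sum]
  refine Submodule.add_mem _ ?_ (Submodule.sum_mem _ fun l _ => ?_)
  · have h1 : star (α k - ∑ l, g k l * F.A l) ∈ T.CorN N (F.y k) x (F.i (F.s k)) := by
      refine corN_star (hαg k) ?_
      have := F.i_s k
      linarith
    exact mul_corN (hα j) h1 (by ring)
  rw [mul_smul_comm, ← mul_assoc]
  refine Submodule.smul_mem _ _ ?_
  have h1 : α j * F.b (F.s l) * star (g k l) =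
      (α j * F.b (F.s l) - F.δ j (F.s l)) * star (g k l) + F.δ j (F.s l) * star (g k l) := by
    rw [sub_mul, sub_add_cancel]
  rw [h1]
  refine Submodule.add_mem _ ?_ ?_
  · have h2 := hαb j (F.s l) (hn _ _)
    rw [F.y_s] at h2
    exact corN_mul h2 (hgs k l) (by ring)
  · by_cases hjl : j = F.s l
    · have h2 : F.l l < F.l k := by
        have h3 : F.l j = - F.l l := by rw [hjl, F.l_s]
        linarith
      have h3 : star (g k l) ∈ T.CorN N (F.y k) (F.y l) (F.i (F.s k) - F.i (F.s l)) := by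
        refine corN_star (hgN k l h2) ?_
        have h1 := F.i_s k
        have h2 := F.i_s l
        linarith
      have h4 := F.δ_mem j (F.s l)
      rw [F.y_s] at h4
      exact mul_corN h4 h3 (by ring)
    · rw [F.δ_ne hjl, zero_mul]
      exact Submodule.zero_mem _

end Frame

end Cycles

end SDCK
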