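import Pool.Agent.LibFR75.Main

/-!
# The frame of a fibration
-/

set_option autoImplicit false

namespace SDCK

universe u v

namespace Cycles

variable (T : Cycles.{u, v})

/-- A family of classes for a morphism `f : V x → V y` of relative dimension `r`: `φ = f^*`, `ξ j`
is the multiplication by a class of codimension `i j`, and `f_* (ξ j · ξ k · f^* α)` is `0` for
`i j + i k < r`; for `i j + i k = r` it is `q j • α` with `q j ≠ 0` if `k = s j`, and `0` otherwise,
where `s` is an involution. -/
structure Fibration (x y : T.ι) (m : ℕ) where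
  r : ℤ
  dim_eq : (T.dim x : ℤ) = T.dim y + r
  φ : T.C
  φ_mem : φ ∈ T.Cor y x 0
  i : Fin m → ℤ
  ξ : Fin m → T.C
  ξ_mem : ∀ j, ξ j ∈ T.Cor x x (i j)
  ξ_star : ∀ j, star (ξ j) = ξ j
  s : Fin m → Fin m
  s_s : ∀ j, s (s j) = j
  i_s : ∀ j, i j + i (s j) = r
  q : Fin m → ℚ
  q_ne : ∀ j, q j ≠ 0
  small : ∀ j k, i j + i k < r → star φ * (ξ j * (ξ k * φ)) = 0
  pair : ∀ j, star φ * (ξ j * (ξ (s j) * φ)) = q j • T.Δ y
  orth : ∀ j k, i j + i k = r → k ≠ s j → star φ * (ξ j * (ξ k * φ)) = 0

variable {T}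

/-- Below the middle degree the cohomology of `V x` is the sum of the `ξ j · f^* H(V y)` and of
classes that come from members of `N`. -/
def Fibration.Spans {x y : T.ι} {m : ℕ} (F : T.Fibration x y m) (N : Set T.ι) : Prop :=
  ∃ a : Fin m → T.C, (∀ j, a j ∈ T.Cor x y (- F.i j)) ∧ ∃ c ∈ T.CorN N x x 0,
    ∀ k : Fin (T.dim x), T.R (∑ j, F.ξ j * (F.φ * a j) + c) * T.π x (low T k) = T.π x (low T k)

/-- Extension of a Chow-Künneth decomposition by zero. -/
def extCK (y : T.ι) (p : Fin (2 * T.dim y + 1) → T.C) (k : ℤ) : T.C :=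
  if h : 0 ≤ k ∧ k ≤ 2 * (T.dim y : ℤ) then p ⟨k.toNat, by omega⟩ else 0

theorem extCK_coe (y : T.ι) (p : Fin (2 * T.dim y + 1) → T.C) (k : Fin (2 * T.dim y + 1)) :
    extCK y p ((k : ℕ) : ℤ) = p k := by
  have h : 0 ≤ ((k : ℕ) : ℤ) ∧ ((k : ℕ) : ℤ) ≤ 2 * (T.dim y : ℤ) := ⟨by omega, by omega⟩
  rw [extCK, dif_pos h]
  congr 1

theorem extCK_out (y : T.ι) (p : Fin (2 * T.dim y + 1) → T.C) {k : ℤ}
    (hk : k < 0 ∨ 2 * (T.dim y : ℤ) < k) : extCK y p k = 0 := by
  rw [extCK, dif_neg (by omega)]

theorem extCK_cases (y : T.ι) (k : ℤ) :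
    (k < 0 ∨ 2 * (T.dim y : ℤ) < k) ∨ ∃ l : Fin (2 * T.dim y + 1), ((l : ℕ) : ℤ) = k := by
  by_cases h : 0 ≤ k ∧ k ≤ 2 * (T.dim y : ℤ)
  · exact Or.inr ⟨⟨k.toNat, by omega⟩, by simp only; omega⟩
  · exact Or.inl (by omega)

theorem isCK_dual {y : T.ι} {p : Fin (2 * T.dim y + 1) → T.C} (hp : T.IsCK y p) :
    T.IsCK y fun k => star (p k.rev) := by
  obtain ⟨h1, h2, h3, h4⟩ := hp
  refine ⟨fun k => T.star_mem (h1 _), ⟨fun k => ?_, fun k l hkl => ?_⟩, ?_, fun k => ?_⟩
  · have := congrArg star (h2.idem k.rev).eq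
    rw [star_mul] at this
    exact this
  · have := congrArg star (h2.ortho (i := l.rev) (j := k.rev) (by
      intro h
      exact hkl (Fin.rev_injective h).symm))
    rw [star_mul, star_zero] at this
    exact this
  · rw [← star_sum, ← star_Δ, ← h3]
    congr 1
    exact Fintype.sum_equiv Fin.revPerm _ _ fun k => rfl
  · rw [T.R_star, h4, T.π_star, Fin.rev_rev]

theorem isPiece_extCK {N : Set T.ι} {y : T.ι} {p : Fin (2 * T.dim y + 1) → T.C} (hp : T.IsCK y p) :
    T.IsPiece N y (extCK y p) := by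
  obtain ⟨h1, h2, h3, h4⟩ := hp
  refine ⟨fun k => ?_, fun k hk => extCK_out y p hk, fun k l => ?_, fun k l hkl => ?_⟩
  · rcases extCK_cases y k with hk | ⟨k, rfl⟩
    · rw [extCK_out y p hk]
      exact Submodule.zero_mem _
    · rw [extCK_coe, Cor, add_zero]
      exact h1 k
  · have : extCK y p k * extCK y p l - (if k = l then extCK y p k else 0) = 0 := by
      rcases extCK_cases y k with hk | ⟨k, rfl⟩
      · rw [extCK_out y p hk, zero_mul, ite_self, sub_zero]
      · rcases extCK_cases y l with hl | ⟨l, rfl⟩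
        · rw [extCK_out y p hl, mul_zero, if_neg (by omega), sub_zero]
        · rw [extCK_coe, extCK_coe]
          by_cases hkl : k = l
          · subst hkl
            rw [if_pos rfl, (h2.idem k).eq, sub_self]
          · rw [if_neg (fun h => hkl (Fin.ext (by exact_mod_cast h))), h2.ortho hkl, sub_zero]
    rw [this]
    exact Submodule.zero_mem _
  · rcases extCK_cases y k with hk | ⟨k, rfl⟩
    · rw [extCK_out y p hk, map_zero, zero_mul]
    · rw [extCK_coe, h4]
      exact (T.π_ortho y).ortho fun h => hkl (by rw [h])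

theorem tot_extCK {y : T.ι} {p : Fin (2 * T.dim y + 1) → T.C} (hp : T.IsCK y p) :
    T.tot y (extCK y p) = T.Δ y := by
  rw [tot, ← hp.2.2.1]
  exact Finset.sum_congr rfl fun k _ => extCK_coe y p k

/-- The frame of a fibration. -/
theorem Fibration.selfDual {N : Set T.ι} (hN : T.Kim N) {x y : T.ι} {m : ℕ}
    (F : T.Fibration x y m) (hF : F.Spans N) {p : Fin (2 * T.dim y + 1) → T.C} (hp : T.IsCK y p)
    (hs : ∀ j, F.s j = j → ∀ k, star (p k) = p k.rev) : ∃ P, T.IsSelfDualCK x P := by
  let p' : Fin m → Fin (2 * T.dim y + 1) → T.C := fun j =>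
    if F.s j < j then fun k => star (p k.rev) else p
  have hp' : ∀ j, T.IsCK y (p' j) := by
    intro j
    by_cases h : F.s j < j
    · simp only [p', if_pos h]
      exact isCK_dual hp
    · simp only [p', if_neg h]
      exact hp
  have hstar : ∀ j k, star (p' j k) = p' (F.s j) k.rev := by
    intro j k
    rcases lt_trichotomy (F.s j) j with h | h | h
    · have h' : ¬ F.s (F.s j) < F.s j := by rw [F.s_s]; exact not_lt.2 h.le
      simp only [p', if_pos h, if_neg h', star_star]
    · have h1 : ¬ F.s j < j := by rw [h]; exact lt_irrefl _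
      have h2 : ¬ F.s (F.s j) < F.s j := by rw [h]; exact h1
      simp only [p', if_neg h1, if_neg h2]
      exact hs j h k
    · have h' : F.s (F.s j) < F.s j := by rw [F.s_s]; exact h
      simp only [p', if_neg (not_lt.2 h.le), if_pos h', Fin.rev_rev]
  have hb : ∀ j, F.ξ j * F.φ ∈ T.Cor y x (F.i j) := fun j =>
    cor_mul (F.ξ_mem j) F.φ_mem (add_zero _)
  let Fr : T.Frame N x m :=
    { y := fun _ => y
      P := fun j => extCK y (p' j)
      piece := fun j => isPiece_extCK (hp' j)
      i := F.i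
      b := fun j => F.ξ j * F.φ
      mem := hb
      b_P := fun j => by
        rw [tot_extCK (hp' j), cor_mul_Δ (hb j), sub_self]
        exact Submodule.zero_mem _
      s := F.s
      s_s := F.s_s
      y_s := fun _ => rfl
      P_s := fun j k => by
        have : star (extCK y (p' j) k) - extCK y (p' (F.s j)) (2 * (T.dim y : ℤ) - k) = 0 := by
          rcases extCK_cases y k with hk | ⟨k, rfl⟩
          · rw [extCK_out y _ hk, extCK_out y _ (by omega), star_zero, sub_zero]
          · have h1 : 2 * (T.dim y : ℤ) - ((k : ℕ) : ℤ) = ((k.rev : ℕ) : ℤ) := by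
              rw [Fin.val_rev]
              omega
            rw [h1, extCK_coe, extCK_coe, hstar, sub_self]
        rw [this]
        exact Submodule.zero_mem _
      i_s := fun j => by
        have := F.dim_eq
        have := F.i_s j
        omega
      l := fun j => 2 * F.i j - F.r
      l_s := fun j => by
        have := F.i_s j
        omega
      q := F.q
      q_ne := F.q_ne
      pair := fun j => by
        rw [tot_extCK (hp' _), star_mul, F.ξ_star, mul_assoc, F.pair, sub_self]
        exact Submodule.zero_mem _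
      orth := fun j k hjk hne => by
        have : star (F.ξ j * F.φ) * (F.ξ k * F.φ) = 0 := by
          rw [star_mul, F.ξ_star, mul_assoc]
          rcases lt_or_eq_of_le (show F.i j + F.i k ≤ F.r by omega) with h | h
          · exact F.small j k h
          · exact F.orth j k h hne
        rw [this]
        exact Submodule.zero_mem _ }
  refine Fr.selfDual hN ?_
  obtain ⟨a, ha, c, hc, h⟩ := hF
  refine ⟨a, ha, c, hc, fun k => ?_⟩
  have h1 : ∑ j, Fr.b j * a j = ∑ j, F.ξ j * (F.φ * a j) :=
    Finset.sum_congr rfl fun j _ => mul_assoc _ _ _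
  rw [h1]
  exact h k

end Cycles

end SDCK
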