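import Pool.Agent.LibFR75.Basic

/-!
# Lower halves modulo correspondences through `N`
-/

set_option autoImplicit false

namespace SDCK

universe u v

namespace Cycles

variable {T : Cycles.{u, v}}

private theorem fr_val_pow {x : T.ι} (a : T.A x) (n : ℕ) :
    val (a ^ (n + 1)) = val a ^ (n + 1) := by
  induction n with
  | zero => rw [zero_add, pow_one, pow_one]
  | succ n ih => rw [pow_succ, val_mul, ih, ← pow_succ]

private theorem fr_val_sub {x : T.ι} (a b : T.A x) : val (a - b) = val a - val b := by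
  rw [sub_eq_add_neg, val_add, val_neg, sub_eq_add_neg]

theorem cor_pow {x : T.ι} {z : T.C} (hz : z ∈ T.Cor x x 0) (n : ℕ) : z ^ (n + 1) ∈ T.Cor x x 0 := by
  induction n with
  | zero => rwa [zero_add, pow_one]
  | succ n ih =>
    rw [pow_succ]
    exact cor_mul ih hz (add_zero 0)

/-- powers modulo `CorN` -/
theorem pow_sub_pow_corN {N : Set T.ι} {x : T.ι} {z w : T.C} (hz : z ∈ T.Cor x x 0)
    (hw : w ∈ T.Cor x x 0) (hzw : w - z ∈ T.CorN N x x 0) (n : ℕ) :
    w ^ (n + 1) - z ^ (n + 1) ∈ T.CorN N x x 0 := by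
  induction n with
  | zero => simpa using hzw
  | succ n ih =>
    have h1 : w ^ (n + 1 + 1) - z ^ (n + 1 + 1) =
        w ^ (n + 1) * (w - z) + (w ^ (n + 1) - z ^ (n + 1)) * z := by
      rw [pow_succ, pow_succ z]
      noncomm_ring
    rw [h1]
    exact Submodule.add_mem _ (mul_corN (cor_pow hw n) hzw (add_zero 0))
      (corN_mul ih hz (add_zero 0))

/-- Orthogonal idempotents lifting the Künneth projectors below the middle modulo correspondences
through `N`, isotropic up to nilpotents. -/
theorem selfDual_of_mod {N : Set T.ι} (h : T.Kim N) {x : T.ι} (c : Fin (T.dim x) → T.C)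
    (hc : ∀ k, c k ∈ T.Cor x x 0)
    (hcc : ∀ k l, c k * c l - (if k = l then c k else 0) ∈ T.CorN N x x 0)
    (hR : ∀ k, T.R (c k) = T.π x (low T k)) (n : ℕ)
    (hn : (star (∑ k, c k) * ∑ k, c k) ^ (n + 1) ∈ T.CorN N x x 0) :
    ∃ P, T.IsSelfDualCK x P := by
  classical
  have hcor : T.Cor x x 0 = T.CH x x (T.dim x) := by rw [Cor, add_zero]
  have hcorN : T.CorN N x x 0 = T.Fac N x x (T.dim x) := by rw [CorN, add_zero]
  have hcm : ∀ k, c k ∈ T.CH x x (T.dim x) := fun k => by
    have h1 := hc k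
    rwa [hcor] at h1
  have hππ : ∀ k l : Fin (T.dim x), T.π x (low T k) * T.π x (low T l) =
      if k = l then T.π x (low T k) else 0 := by
    intro k l
    rw [(T.π_ortho x).mul_eq]
    by_cases hkl : k = l
    · rw [if_pos hkl, if_pos (by rw [hkl])]
    · rw [if_neg hkl, if_neg]
      intro h1
      have h2 := congrArg Fin.val h1
      exact hkl (Fin.ext h2)
  have hnn : ∀ z, z ∈ T.CorN N x x 0 → T.R z = 0 → z ∈ T.nn N x := by
    intro z hz hz0
    rw [hcorN] at hz
    exact ⟨hz, hz0⟩
  let K : Set (toCorr x).A := {a : T.A x | val a ∈ T.nn N x}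
  have hK : IsIdeal K :=
    { zero := (T.nn N x).zero_mem
      add := fun a ha b hb => (T.nn N x).add_mem ha hb
      mul := fun g a ha y => by
        change val (T := T) (x := x) (g * a * y) ∈ T.nn N x
        exact mul_nn_mul rfl (val_mem (T := T) (x := x) g) ha (val_mem (T := T) (x := x) y) }
  have hnilC : ∀ a : T.A x, val a ∈ T.nn N x → IsNilpotent a := by
    intro a ha
    obtain ⟨n, hn⟩ := kim_nilpotent h ha
    refine ⟨n + 1, val_inj ?_⟩
    have h1 : val a ^ (n + 1) = val (0 : T.A x) := by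
      rw [pow_succ, hn, zero_mul, val_zero]
    exact (fr_val_pow a n).trans h1
  obtain ⟨q, hq, hqc⟩ := lift_ortho (A := T.A x) hK hnilC (fun k => mk' (c k) (hcm k))
    (fun k => by
      change val (mk' (c k) (hcm k) * mk' (c k) (hcm k) - mk' (c k) (hcm k)) ∈ T.nn N x
      rw [fr_val_sub, val_mul, val_mk]
      have h1 := hcc k k
      rw [if_pos rfl] at h1
      refine hnn _ h1 ?_
      rw [map_sub, map_mul, hR, hππ, if_pos rfl, sub_self])
    (fun k l hkl => by
      change val (mk' (c k) (hcm k) * mk' (c l) (hcm l)) ∈ T.nn N x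
      rw [val_mul, val_mk, val_mk]
      have h1 := hcc k l
      rw [if_neg hkl, sub_zero] at h1
      refine hnn _ h1 ?_
      rw [map_mul, hR, hR, hππ, if_neg hkl])
  have hqc' : ∀ k, val (q k) - c k ∈ T.nn N x := by
    intro k
    have h1 : val (q k - mk' (c k) (hcm k)) ∈ T.nn N x := hqc k
    rwa [fr_val_sub, val_mk] at h1
  have hqR : ∀ k, T.R (val (q k)) = T.π x (low T k) := by
    intro k
    have h1 := (hqc' k).2
    rw [map_sub, sub_eq_zero] at h1
    rw [h1, hR]
  have hlow : (toCorr x).IsLowerCK q := ⟨hq, fun k => vh_inj (T := T) (x := x) (hqR k)⟩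
  have hnil : IsNilpotent (star (∑ k, q k) * ∑ k, q k) := by
    have hval : val (star (∑ k, q k) * ∑ k, q k) = star (∑ k, val (q k)) * ∑ k, val (q k) := by
      rw [val_mul, val_star, val_sum]
    have hsub : (∑ k, val (q k)) - ∑ k, c k ∈ T.CorN N x x 0 := by
      rw [← Finset.sum_sub_distrib]
      refine Submodule.sum_mem _ fun k _ => ?_
      rw [hcorN]
      exact (hqc' k).1
    have hS : ∑ k, c k ∈ T.Cor x x 0 := Submodule.sum_mem _ fun k _ => hc k
    have hS' : ∑ k, val (q k) ∈ T.Cor x x 0 := by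
      refine Submodule.sum_mem _ fun k _ => ?_
      rw [hcor]
      exact val_mem (q k)
    have hst : ∀ z, z ∈ T.Cor x x 0 → star z ∈ T.Cor x x 0 := fun z hz => cor_star hz rfl
    have hsub2 : star (∑ k, val (q k)) * (∑ k, val (q k)) - star (∑ k, c k) * ∑ k, c k ∈
        T.CorN N x x 0 := by
      have h1 : star (∑ k, val (q k)) * (∑ k, val (q k)) - star (∑ k, c k) * ∑ k, c k =
          star (∑ k, val (q k)) * ((∑ k, val (q k)) - ∑ k, c k) +
          star ((∑ k, val (q k)) - ∑ k, c k) * ∑ k, c k := by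
        rw [star_sub, mul_sub, sub_mul]
        abel
      rw [h1]
      exact Submodule.add_mem _ (mul_corN (hst _ hS') hsub (add_zero 0))
        (corN_mul (corN_star hsub rfl) hS (add_zero 0))
    have hpow := pow_sub_pow_corN (cor_mul (hst _ hS) hS (add_zero 0))
      (cor_mul (hst _ hS') hS' (add_zero 0)) hsub2 n
    have hpow2 : (star (∑ k, val (q k)) * ∑ k, val (q k)) ^ (n + 1) ∈ T.CorN N x x 0 := by
      have h1 := Submodule.add_mem _ hpow hn
      rwa [sub_add_cancel] at h1
    have hR0 : T.R (star (∑ k, val (q k)) * ∑ k, val (q k)) = 0 := by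
      rw [map_mul, T.R_star, map_sum, star_sum, Finset.sum_mul]
      refine Finset.sum_eq_zero fun k _ => ?_
      rw [Finset.mul_sum]
      refine Finset.sum_eq_zero fun l _ => ?_
      rw [hqR, hqR, T.π_star, (T.π_ortho x).mul_eq, if_neg]
      intro h1
      have h2 := congrArg Fin.val h1
      rw [Fin.val_rev] at h2
      have h3 : ((low T k : Fin (2 * T.dim x + 1)) : ℕ) = k := rfl
      have h4 : ((low T l : Fin (2 * T.dim x + 1)) : ℕ) = l := rfl
      have := k.isLt
      have := l.isLt
      omega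
    have hmem : val ((star (∑ k, q k) * ∑ k, q k) ^ (n + 1)) ∈ T.nn N x := by
      rw [fr_val_pow, hval]
      refine hnn _ hpow2 ?_
      rw [map_pow, hR0, zero_pow (Nat.succ_ne_zero n)]
    obtain ⟨r, hr⟩ := hnilC _ hmem
    exact ⟨(n + 1) * r, by rw [pow_mul, hr]⟩
  obtain ⟨P, ⟨⟨hP, hPR⟩, hs⟩, -⟩ := (toCorr x).selfDual_of_nilpotent_mem hlow hnil
  refine ⟨fun k => val (T := T) (x := x) (P k), ⟨⟨fun k => val_mem (T := T) (x := x) (P k),
    ⟨fun k => ?_, fun k l hkl => ?_⟩, ?_, fun k => ?_⟩, fun k => ?_⟩⟩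
  · have h1 : P k * P k = P k := (hP.idem k).eq
    exact congrArg (val (T := T) (x := x)) h1
  · have h1 : P k * P l = 0 := hP.ortho hkl
    exact congrArg (val (T := T) (x := x)) h1
  · have h1 : ∑ k, P k = 1 := hP.complete
    have h2 := congrArg (val (T := T) (x := x)) h1
    exact (val_sum _).symm.trans h2
  · exact congrArg (vh (T := T) (x := x)) (hPR k)
  · exact congrArg (val (T := T) (x := x)) (hs k)

end Cycles

end SDCK
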