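import Pool.Agent.LibFR75.Dual
import Pool.Agent.LibFR75.Mod

/-!
# Self-dual Chow-Künneth decompositions from frames
-/

set_option autoImplicit false

namespace SDCK

universe u v

namespace Cycles

variable {T : Cycles.{u, v}}

theorem piece_R {N : Set T.ι} {y : T.ι} {P : ℤ → T.C} (hP : T.IsPiece N y P) {k l : ℤ}
    (h : k ≠ l) : T.R (P k) * T.πZ y l = 0 := by
  rcases πZ_cases y l with ⟨l', hl', hl⟩ | hl
  · rw [hl]
    exact hP.R k l' (by rw [hl']; exact Ne.symm h)
  · rw [hl, mul_zero]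

theorem sum_πZ (y : T.ι) : ∑ k : Fin (2 * T.dim y + 1), T.πZ y ((k : ℕ) : ℤ) = T.R (T.Δ y) := by
  rw [← T.π_sum]
  exact Finset.sum_congr rfl fun k _ => πZ_coe y k

theorem piece_tot_R {N : Set T.ι} {y : T.ι} {P : ℤ → T.C} (hP : T.IsPiece N y P) (k : ℤ) :
    T.R (P k) = T.R (T.tot y P) * T.πZ y k := by
  have h1 : T.R (T.tot y P) * T.πZ y k = T.R (P k) * T.πZ y k := by
    by_cases hk : k < 0 ∨ 2 * (T.dim y : ℤ) < k
    · rw [πZ_out y hk, mul_zero, mul_zero]
    · rw [tot, map_sum, Finset.sum_mul,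
        Finset.sum_eq_single (⟨k.toNat, by omega⟩ : Fin (2 * T.dim y + 1))]
      · have h2 : ((k.toNat : ℕ) : ℤ) = k := by omega
        simp only [h2]
      · intro l _ hl
        refine piece_R hP ?_
        intro h2
        apply hl
        ext
        simp only
        omega
      · intro h2
        exact absurd (Finset.mem_univ _) h2
  have h2 : T.R (P k) = T.R (P k) * T.R (T.Δ y) := by
    rw [← map_mul, cor_mul_Δ (hP.mem k)]
  rw [h1, h2, ← sum_πZ, Finset.mul_sum, Finset.sum_mul]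
  refine Finset.sum_congr rfl fun l _ => ?_
  by_cases hkl : k = ((l : ℕ) : ℤ)
  · rw [mul_assoc, hkl, πZ_mul, if_pos rfl]
  · rw [piece_R hP hkl, zero_mul]

namespace Frame

variable {N : Set T.ι} {x : T.ι} {m : ℕ} (F : T.Frame N x m)

variable {α : Fin m → T.C}

/-- the correspondence of `V x` given by endomorphisms of the members of the frame -/
noncomputable def E (α : Fin m → T.C) (Q : Fin m → T.C) : T.C := ∑ j, F.b j * (Q j * α j)

theorem E_mem (hα : ∀ j, α j ∈ T.Cor x (F.y j) (- F.i j)) {Q : Fin m → T.C}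
    (hQ : ∀ j, Q j ∈ T.Cor (F.y j) (F.y j) 0) : F.E α Q ∈ T.Cor x x 0 :=
  Submodule.sum_mem _ fun j _ => cor_mul (F.mem j) (cor_mul (hQ j) (hα j) rfl) (by ring)

theorem E_memN (hα : ∀ j, α j ∈ T.Cor x (F.y j) (- F.i j)) {Q : Fin m → T.C}
    (hQ : ∀ j, Q j ∈ T.CorN N (F.y j) (F.y j) 0) : F.E α Q ∈ T.CorN N x x 0 :=
  Submodule.sum_mem _ fun j _ => mul_corN (F.mem j) (corN_mul (hQ j) (hα j) rfl) (by ring)

theorem E_sub (Q Q' : Fin m → T.C) : F.E α Q - F.E α Q' = F.E α (fun j => Q j - Q' j) := by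
  unfold E
  rw [← Finset.sum_sub_distrib]
  refine Finset.sum_congr rfl fun j _ => ?_
  rw [sub_mul, mul_sub]

theorem E_mul (hα : ∀ j, α j ∈ T.Cor x (F.y j) (- F.i j))
    (hαb : ∀ j k, α j * F.b k - F.δ j k ∈ T.CorN N (F.y k) (F.y j) (F.i k - F.i j))
    {Q Q' : Fin m → T.C} (hQ : ∀ j, Q j ∈ T.Cor (F.y j) (F.y j) 0)
    (hQε : ∀ j, Q j * F.ε j - Q j ∈ T.CorN N (F.y j) (F.y j) 0)
    (hQ' : ∀ j, Q' j ∈ T.Cor (F.y j) (F.y j) 0) :
    F.E α Q * F.E α Q' - F.E α (fun j => Q j * Q' j) ∈ T.CorN N x x 0 := by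
  have h1 : F.E α Q * F.E α Q' - F.E α (fun j => Q j * Q' j) =
      ∑ j, ∑ k, F.b j * (Q j * ((α j * F.b k - F.δ j k) * (Q' k * α k))) +
      ∑ j, F.b j * ((Q j * F.ε j - Q j) * (Q' j * α j)) := by
    have h2 : ∀ j, ∑ k, F.b j * (Q j * (F.δ j k * (Q' k * α k))) =
        F.b j * (Q j * (F.ε j * (Q' j * α j))) := by
      intro j
      rw [Finset.sum_eq_single j]
      · rw [δ_self]
      · intro k _ hk
        rw [F.δ_ne (Ne.symm hk), zero_mul, mul_zero, mul_zero]
      · intro h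
        exact absurd (Finset.mem_univ j) h
    have h3 : ∀ j, F.b j * ((Q j * F.ε j - Q j) * (Q' j * α j)) =
        ∑ k, F.b j * (Q j * (F.δ j k * (Q' k * α k))) - F.b j * (Q j * Q' j * α j) := by
      intro j
      rw [h2, sub_mul, mul_sub]
      simp only [mul_assoc]
    have h4 : ∀ j, ∑ k, F.b j * (Q j * ((α j * F.b k - F.δ j k) * (Q' k * α k))) =
        F.b j * (Q j * α j) * F.E α Q' - ∑ k, F.b j * (Q j * (F.δ j k * (Q' k * α k))) := by
      intro j
      unfold E
      rw [Finset.mul_sum, ← Finset.sum_sub_distrib]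
      refine Finset.sum_congr rfl fun k _ => ?_
      rw [sub_mul, mul_sub, mul_sub]
      simp only [mul_assoc]
    simp only [h3, h4]
    rw [Finset.sum_sub_distrib, Finset.sum_sub_distrib]
    have h5 : F.E α Q * F.E α Q' = ∑ j, F.b j * (Q j * α j) * F.E α Q' := by
      conv_lhs => rw [E, Finset.sum_mul]
    rw [h5]
    change _ - ∑ j, F.b j * (Q j * Q' j * α j) = _
    abel
  rw [h1]
  refine Submodule.add_mem _ (Submodule.sum_mem _ fun j _ => Submodule.sum_mem _ fun k _ =>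
    mul_corN (F.mem j) (mul_corN (hQ j) (corN_mul (hαb j k) (cor_mul (hQ' k) (hα k) rfl) rfl) rfl)
      (by ring)) (Submodule.sum_mem _ fun j _ => mul_corN (F.mem j) (corN_mul (hQε j)
        (cor_mul (hQ' j) (hα j) rfl) rfl) (by ring))

/-- forms on the dual frame -/
noncomputable def S (α : Fin m → T.C) (Y : Fin m → Fin m → T.C) : T.C :=
  ∑ j, ∑ k, star (α j) * (Y j k * α k)

theorem star_α_mem (hα : ∀ j, α j ∈ T.Cor x (F.y j) (- F.i j)) (j : Fin m) :
    star (α j) ∈ T.Cor (F.y j) x (F.i (F.s j)) := by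
  refine cor_star (hα j) ?_
  have := F.i_s j
  linarith

theorem S_mem (hα : ∀ j, α j ∈ T.Cor x (F.y j) (- F.i j)) {Y : Fin m → Fin m → T.C}
    (hY : ∀ j k, Y j k ∈ T.CorN N (F.y k) (F.y j) (F.i k - F.i (F.s j))) :
    S α Y ∈ T.CorN N x x 0 :=
  Submodule.sum_mem _ fun j _ => Submodule.sum_mem _ fun k _ =>
    mul_corN (F.star_α_mem hα j) (corN_mul (hY j k) (hα k) rfl) (by ring)

theorem S_mul (Y Y' : Fin m → Fin m → T.C) : S α Y * S α Y' =
    S α (fun j k => ∑ a, ∑ b, Y j a * (α a * star (α b)) * Y' b k) := by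
  unfold S
  rw [Finset.sum_mul]
  refine Finset.sum_congr rfl fun j _ => ?_
  have h1 : ∀ k, star (α j) * ((∑ a, ∑ b, Y j a * (α a * star (α b)) * Y' b k) * α k) =
      ∑ a, ∑ b, star (α j) * (Y j a * α a) * (star (α b) * (Y' b k * α k)) := by
    intro k
    rw [Finset.sum_mul, Finset.mul_sum]
    refine Finset.sum_congr rfl fun a _ => ?_
    rw [Finset.sum_mul, Finset.mul_sum]
    refine Finset.sum_congr rfl fun b _ => ?_
    simp only [mul_assoc]
  rw [Finset.sum_congr rfl fun k _ => h1 k, Finset.sum_mul]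
  conv_rhs => rw [Finset.sum_comm]
  refine Finset.sum_congr rfl fun a _ => ?_
  conv_rhs => rw [Finset.sum_comm]
  rw [Finset.mul_sum]
  refine Finset.sum_congr rfl fun b _ => ?_
  rw [Finset.mul_sum]

/-- powers of forms of positive level -/
theorem S_pow (hα : ∀ j, α j ∈ T.Cor x (F.y j) (- F.i j))
    (hαα : ∀ j k, 0 < F.l j + F.l k → α j * star (α k) ∈ T.CorN N (F.y k) (F.y j)
      (F.i (F.s k) - F.i j)) {X : Fin m → Fin m → T.C}
    (hX : ∀ j k, X j k ∈ T.Cor (F.y k) (F.y j) (F.i k - F.i (F.s j)))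
    (hXN : ∀ j k, F.l j + F.l k ≤ 0 → X j k ∈ T.CorN N (F.y k) (F.y j) (F.i k - F.i (F.s j)))
    (n : ℕ) : ∃ Y : Fin m → Fin m → T.C,
      (∀ j k, Y j k ∈ T.Cor (F.y k) (F.y j) (F.i k - F.i (F.s j))) ∧
      (∀ j k, F.l j + F.l k ≤ n → Y j k ∈ T.CorN N (F.y k) (F.y j) (F.i k - F.i (F.s j))) ∧
      S α X ^ (n + 1) = S α Y := by
  induction n with
  | zero => exact ⟨X, hX, fun j k h => hXN j k (by simpa using h), by rw [zero_add, pow_one]⟩
  | succ n ih =>
    obtain ⟨Y, hY, hYN, hpow⟩ := ih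
    have hM : ∀ a b, α a * star (α b) ∈ T.Cor (F.y b) (F.y a) (F.i (F.s b) - F.i a) :=
      fun a b => cor_mul (hα a) (F.star_α_mem hα b) (by ring)
    refine ⟨fun j k => ∑ a, ∑ b, Y j a * (α a * star (α b)) * X b k, fun j k => ?_,
      fun j k h => ?_, by rw [pow_succ, hpow, S_mul]⟩
    · exact Submodule.sum_mem _ fun a _ => Submodule.sum_mem _ fun b _ =>
        cor_mul (cor_mul (hY j a) (hM a b) rfl) (hX b k) (by ring)
    · refine Submodule.sum_mem _ fun a _ => Submodule.sum_mem _ fun b _ => ?_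
      push_cast at h
      by_cases h1 : F.l j + F.l a ≤ n
      · exact corN_mul (corN_mul (hYN j a h1) (hM a b) rfl) (hX b k) (by ring)
      · by_cases h2 : 0 < F.l a + F.l b
        · exact corN_mul (mul_corN (hY j a) (hαα a b h2) rfl) (hX b k) (by ring)
        · exact mul_corN (cor_mul (hY j a) (hM a b) rfl) (hXN b k (by omega)) (by ring)

theorem star_E_mul_E (Q : Fin m → T.C) : star (F.E α Q) * F.E α Q =
    S α (fun j k => star (Q j) * (star (F.b j) * F.b k) * Q k) := by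
  unfold E S
  rw [star_sum, Finset.sum_mul]
  refine Finset.sum_congr rfl fun j _ => ?_
  rw [Finset.mul_sum]
  refine Finset.sum_congr rfl fun k _ => ?_
  rw [star_mul, star_mul]
  simp only [mul_assoc]

/-- The theorem on frames. -/
theorem selfDual (hN : T.Kim N) (hS : F.Spans) : ∃ P, T.IsSelfDualCK x P := by
  classical
  obtain ⟨α, hα, hαb, hαα⟩ := F.exists_dual'
  obtain ⟨a, ha, c, hc, hspan⟩ := hS
  -- pieces of the frame
  have hE : ∀ Q : Fin m → T.C, (∀ j, Q j ∈ T.Cor (F.y j) (F.y j) 0) → F.E α Q ∈ T.Cor x x 0 :=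
    fun Q hQ => F.E_mem hα hQ
  let u : T.C := F.E α F.ε
  have hu : u ∈ T.Cor x x 0 := hE _ F.ε_mem
  have hcN : c ∈ T.CorN N x x 0 := hc
  -- u is the identity on the frame
  have hub : ∀ k, u * F.b k - F.b k ∈ T.CorN N (F.y k) x (F.i k) := by
    intro k
    have h1 : u * F.b k - F.b k = ∑ j, F.b j * (F.ε j * (α j * F.b k - F.δ j k)) +
        (F.b k * (F.ε k * F.ε k - F.ε k) + (F.b k * F.ε k - F.b k)) := by
      have h2 : ∑ j, F.b j * (F.ε j * F.δ j k) = F.b k * (F.ε k * F.ε k) := by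
        rw [Finset.sum_eq_single k]
        · rw [δ_self]
        · intro j _ hj
          rw [F.δ_ne hj, mul_zero, mul_zero]
        · intro h
          exact absurd (Finset.mem_univ k) h
      have h3 : ∑ j, F.b j * (F.ε j * (α j * F.b k - F.δ j k)) =
          u * F.b k - ∑ j, F.b j * (F.ε j * F.δ j k) := by
        change _ = (∑ j, F.b j * (F.ε j * α j)) * F.b k - _
        rw [Finset.sum_mul, ← Finset.sum_sub_distrib]
        refine Finset.sum_congr rfl fun j _ => ?_
        rw [mul_sub, mul_sub]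
        simp only [mul_assoc]
      rw [h3, h2, mul_sub]
      abel
    rw [h1]
    exact Submodule.add_mem _ (Submodule.sum_mem _ fun j _ => mul_corN (F.mem j)
      (mul_corN (F.ε_mem j) (hαb j k) rfl) (by ring)) (Submodule.add_mem _
      (mul_corN (F.mem k) (F.ε_ε k) (add_zero _)) (F.b_P k))
  let ν : T.C := (T.Δ x - u) * (∑ j, F.b j * a j + c)
  have hν : ν ∈ T.CorN N x x 0 := by
    have h1 : ν = ∑ j, (-((u * F.b j - F.b j) * a j)) + (T.Δ x - u) * c := by
      change (T.Δ x - u) * (∑ j, F.b j * a j + c) = _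
      rw [mul_add, Finset.mul_sum]
      congr 1
      refine Finset.sum_congr rfl fun j _ => ?_
      rw [← mul_assoc, sub_mul, Δ_cor_mul (F.mem j), sub_mul, sub_mul]
      abel
    rw [h1]
    refine Submodule.add_mem _ (Submodule.sum_mem _ fun j _ => Submodule.neg_mem _
      (corN_mul (hub j) (ha j) (by ring))) (mul_corN (Submodule.sub_mem _ (Δ_cor x) hu) hcN
      (add_zero 0))
  choose c' hc' hc'R using fun k : Fin (T.dim x) => corN_cut hN hν ((k : ℕ) : ℤ)
  -- the pieces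
  let Q : ℤ → Fin m → T.C := fun k j => F.P j (k - 2 * F.i j)
  have hQ : ∀ k j, Q k j ∈ T.Cor (F.y j) (F.y j) 0 := fun k j => (F.piece j).mem _
  have hRe : ∀ k, T.R (F.E α (Q k)) = T.R u * T.πZ x k := by
    intro k
    change T.R (∑ j, F.b j * (F.P j (k - 2 * F.i j) * α j)) =
      T.R (∑ j, F.b j * (F.ε j * α j)) * T.πZ x k
    rw [map_sum, map_sum, Finset.sum_mul]
    refine Finset.sum_congr rfl fun j _ => ?_
    rw [map_mul, map_mul, piece_tot_R (F.piece j), map_mul, map_mul]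
    change _ = T.R (F.b j) * (T.R (T.tot (F.y j) (F.P j)) * T.R (α j)) * T.πZ x k
    rw [mul_assoc, mul_assoc, mul_assoc,
      R_comm hN (hα j) (k := k) (l := k - 2 * F.i j) (by ring)]
  have hEE : ∀ k l : ℤ, F.E α (Q k) * F.E α (Q l) - (if k = l then F.E α (Q k) else 0) ∈
      T.CorN N x x 0 := by
    intro k l
    have h1 := F.E_mul hα hαb (hQ k) (fun j => F.P_ε j _) (hQ l)
    have h2 : F.E α (fun j => Q k j * Q l j) - (if k = l then F.E α (Q k) else 0) ∈
        T.CorN N x x 0 := by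
      have h3 : (if k = l then F.E α (Q k) else 0) =
          F.E α (fun j => if k = l then Q k j else 0) := by
        by_cases hkl : k = l
        · simp only [if_pos hkl]
        · simp only [if_neg hkl]
          unfold E
          simp
      rw [h3, E_sub]
      refine F.E_memN hα fun j => ?_
      have h4 := (F.piece j).mul (k - 2 * F.i j) (l - 2 * F.i j)
      by_cases hkl : k = l
      · rw [if_pos (by rw [hkl])] at h4
        simp only [if_pos hkl]
        exact h4
      · rw [if_neg (by omega)] at h4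
        simp only [if_neg hkl]
        exact h4
    have h5 := Submodule.add_mem _ h1 h2
    rwa [sub_add_sub_cancel] at h5
  let C : Fin (T.dim x) → T.C := fun k => F.E α (Q ((k : ℕ) : ℤ)) + c' k
  have hC : ∀ k, C k ∈ T.Cor x x 0 := fun k =>
    Submodule.add_mem _ (hE _ (hQ _)) (corN_le N x x 0 (hc' k))
  -- the levels
  let W : Fin m → T.C := fun j => ∑ k : Fin (T.dim x), Q ((k : ℕ) : ℤ) j
  have hW : ∀ j, W j ∈ T.Cor (F.y j) (F.y j) 0 := fun j =>
    Submodule.sum_mem _ fun k _ => hQ _ j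
  have hWs : ∀ j, star (W j) ∈ T.Cor (F.y j) (F.y j) 0 := fun j => cor_star (hW j) rfl
  have hEW : ∑ k : Fin (T.dim x), F.E α (Q ((k : ℕ) : ℤ)) = F.E α W := by
    unfold E
    rw [Finset.sum_comm]
    refine Finset.sum_congr rfl fun j _ => ?_
    rw [Finset.sum_mul, Finset.mul_sum]
  have hbb : ∀ j k, star (F.b j) * F.b k ∈ T.Cor (F.y k) (F.y j) (F.i k - F.i (F.s j)) := by
    intro j k
    have h1 : star (F.b j) ∈ T.Cor x (F.y j) (- F.i (F.s j)) := by
      refine cor_star (F.mem j) ?_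
      have := F.i_s j
      linarith
    exact cor_mul h1 (F.mem k) (by ring)
  have hcast : ∀ j z, z ∈ T.Cor (F.y (F.s j)) (F.y (F.s j)) 0 → z ∈ T.Cor (F.y j) (F.y j) 0 := by
    intro j z hz
    rwa [F.y_s] at hz
  have hcastN : ∀ j z, z ∈ T.CorN N (F.y (F.s j)) (F.y (F.s j)) 0 →
      z ∈ T.CorN N (F.y j) (F.y j) 0 := by
    intro j z hz
    rwa [F.y_s] at hz
  have hWW : ∀ j, star (W j) * W (F.s j) ∈ T.CorN N (F.y j) (F.y j) 0 := by
    intro j
    change star (∑ k : Fin (T.dim x), F.P j (((k : ℕ) : ℤ) - 2 * F.i j)) *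
      (∑ l : Fin (T.dim x), F.P (F.s j) (((l : ℕ) : ℤ) - 2 * F.i (F.s j))) ∈ _
    rw [star_sum, Finset.sum_mul]
    refine Submodule.sum_mem _ fun k _ => ?_
    rw [Finset.mul_sum]
    refine Submodule.sum_mem _ fun l _ => ?_
    have h0 := F.P_s j (((k : ℕ) : ℤ) - 2 * F.i j)
    have h1 : F.P (F.s j) (((l : ℕ) : ℤ) - 2 * F.i (F.s j)) ∈ T.Cor (F.y j) (F.y j) 0 :=
      hcast j _ ((F.piece (F.s j)).mem _)
    have h2 := (F.piece (F.s j)).mul (2 * T.dim (F.y j) - (((k : ℕ) : ℤ) - 2 * F.i j))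
      (((l : ℕ) : ℤ) - 2 * F.i (F.s j))
    rw [if_neg, sub_zero] at h2
    · have h3 := Submodule.add_mem _ (corN_mul h0 h1 (add_zero 0)) (hcastN j _ h2)
      rwa [sub_mul, sub_add_cancel] at h3
    · have h1 := F.i_s j
      have := k.isLt
      have := l.isLt
      omega
  obtain ⟨n, hn⟩ : ∃ n : ℕ, ∀ j k, F.l j + F.l k ≤ n := by
    refine ⟨∑ j, ∑ k, (F.l j + F.l k).toNat, fun j k => ?_⟩
    have h1 : (F.l j + F.l k).toNat ≤ ∑ j, ∑ k, (F.l j + F.l k).toNat :=
      (Finset.single_le_sum (f := fun k => (F.l j + F.l k).toNat) (fun _ _ => Nat.zero_le _)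
        (Finset.mem_univ k)).trans (Finset.single_le_sum
        (f := fun j => ∑ k, (F.l j + F.l k).toNat) (fun _ _ => Nat.zero_le _) (Finset.mem_univ j))
    omega
  have hεW : ∀ j, F.ε (F.s j) * W (F.s j) - W (F.s j) ∈ T.CorN N (F.y j) (F.y j) 0 := by
    intro j
    have h1 : ∀ k, F.ε (F.s j) * F.P (F.s j) k - F.P (F.s j) k ∈ T.CorN N (F.y j) (F.y j) 0 := by
      intro k
      have hdim : T.dim (F.y (F.s j)) = T.dim (F.y j) := by rw [F.y_s]
      -- star of the relation `P * ε = P` for the dual summand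
      have h2 : F.P j (2 * T.dim (F.y j) - k) * F.ε j - F.P j (2 * T.dim (F.y j) - k) ∈
          T.CorN N (F.y j) (F.y j) 0 := F.P_ε j _
      have h3 : star (F.P j (2 * T.dim (F.y j) - k)) - F.P (F.s j) k ∈
          T.CorN N (F.y j) (F.y j) 0 := by
        have h4 := F.P_s j (2 * T.dim (F.y j) - k)
        have h5 : 2 * (T.dim (F.y j) : ℤ) - (2 * T.dim (F.y j) - k) = k := by ring
        rwa [h5] at h4
      have h4 := F.star_ε j
      have h6 : star (F.ε j) * star (F.P j (2 * T.dim (F.y j) - k)) -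
          star (F.P j (2 * T.dim (F.y j) - k)) ∈ T.CorN N (F.y j) (F.y j) 0 := by
        have h7 := corN_star h2 (t := 0) rfl
        rwa [star_sub, star_mul] at h7
      have hsε : star (F.ε j) ∈ T.Cor (F.y j) (F.y j) 0 := cor_star (F.ε_mem j) rfl
      have hP' : F.P (F.s j) k ∈ T.Cor (F.y j) (F.y j) 0 := hcast j _ ((F.piece (F.s j)).mem _)
      have h8 : F.ε (F.s j) * F.P (F.s j) k - F.P (F.s j) k =
          (star (F.ε j) * star (F.P j (2 * T.dim (F.y j) - k)) -
            star (F.P j (2 * T.dim (F.y j) - k))) -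
          star (F.ε j) * (star (F.P j (2 * T.dim (F.y j) - k)) - F.P (F.s j) k) -
          (star (F.ε j) - F.ε (F.s j)) * F.P (F.s j) k +
          (star (F.P j (2 * T.dim (F.y j) - k)) - F.P (F.s j) k) := by
        noncomm_ring
      rw [h8]
      exact Submodule.add_mem _ (Submodule.sub_mem _ (Submodule.sub_mem _ h6
        (mul_corN hsε h3 (add_zero 0))) (corN_mul h4 hP' (add_zero 0))) h3
    change F.ε (F.s j) * (∑ l : Fin (T.dim x), F.P (F.s j) (((l : ℕ) : ℤ) - 2 * F.i (F.s j))) -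
      (∑ l : Fin (T.dim x), F.P (F.s j) (((l : ℕ) : ℤ) - 2 * F.i (F.s j))) ∈ _
    rw [Finset.mul_sum, ← Finset.sum_sub_distrib]
    exact Submodule.sum_mem _ fun l _ => h1 _
  obtain ⟨Y, -, hYN, hYpow⟩ := F.S_pow hα hαα
    (X := fun j k => star (W j) * (star (F.b j) * F.b k) * W k)
    (fun j k => cor_mul (cor_mul (hWs j) (hbb j k) (zero_add _)) (hW k) (add_zero _))
    (fun j k hjk => by
      by_cases hk : k = F.s j
      · subst hk
        have h1 := F.pair j
        have h2 : star (W j) * (star (F.b j) * F.b (F.s j)) * W (F.s j) =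
            star (W j) * (star (F.b j) * F.b (F.s j) - F.q j • T.tot (F.y j) (F.P (F.s j))) *
              W (F.s j) + F.q j • (star (W j) *
              (T.tot (F.y j) (F.P (F.s j)) * W (F.s j) - W (F.s j)) +
              star (W j) * W (F.s j)) := by
          simp only [mul_sub, sub_mul, mul_smul_comm, smul_mul_assoc, smul_add, smul_sub,
            mul_assoc]
          abel
        have htot : T.tot (F.y j) (F.P (F.s j)) = F.ε (F.s j) := by
          have hdim : T.dim (F.y (F.s j)) = T.dim (F.y j) := by rw [F.y_s]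
          rw [ε, tot, tot, hdim]
        rw [h2]
        have h4 : W (F.s j) ∈ T.Cor (F.y j) (F.y j) 0 := hcast j _ (hW _)
        have h6 := corN_mul (mul_corN (hWs j) h1 (add_zero 0)) h4 (add_zero 0)
        rw [F.y_s, sub_self]
        refine Submodule.add_mem _ h6 (Submodule.smul_mem _ _ (Submodule.add_mem _ ?_ (hWW j)))
        rw [htot]
        exact mul_corN (hWs j) (hεW j) (add_zero 0)
      · exact corN_mul (mul_corN (hWs j) (F.orth j k hjk hk) (zero_add _)) (hW k) (add_zero _)) n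
  refine selfDual_of_mod hN C hC (fun k l => ?_) (fun k => ?_) n ?_
  · have h1 : C k * C l - (if k = l then C k else 0) =
        (F.E α (Q ((k : ℕ) : ℤ)) * F.E α (Q ((l : ℕ) : ℤ)) -
          (if ((k : ℕ) : ℤ) = ((l : ℕ) : ℤ) then F.E α (Q ((k : ℕ) : ℤ)) else 0)) +
        (F.E α (Q ((k : ℕ) : ℤ)) * c' l + c' k * C l - (if k = l then c' k else 0)) := by
      change (F.E α (Q ((k : ℕ) : ℤ)) + c' k) * (F.E α (Q ((l : ℕ) : ℤ)) + c' l) -
        (if k = l then F.E α (Q ((k : ℕ) : ℤ)) + c' k else 0) = _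
      by_cases hkl : k = l
      · subst hkl
        rw [if_pos rfl, if_pos rfl, if_pos rfl]
        change _ = _ + (_ + c' k * (F.E α (Q ((k : ℕ) : ℤ)) + c' k) - _)
        noncomm_ring
      · have h2 : ¬ ((k : ℕ) : ℤ) = ((l : ℕ) : ℤ) := fun h3 => hkl (by ext; omega)
        rw [if_neg hkl, if_neg h2, if_neg hkl]
        change _ = _ + (_ + c' k * (F.E α (Q ((l : ℕ) : ℤ)) + c' l) - _)
        noncomm_ring
    rw [h1]
    refine Submodule.add_mem _ (hEE _ _) (Submodule.sub_mem _ (Submodule.add_mem _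
      (mul_corN (hE _ (hQ _)) (hc' l) (add_zero 0)) (corN_mul (hc' k) (hC l) (add_zero 0))) ?_)
    split_ifs
    · exact hc' k
    · exact Submodule.zero_mem _
  · change T.R (F.E α (Q ((k : ℕ) : ℤ)) + c' k) = _
    have hk : T.πZ x ((k : ℕ) : ℤ) = T.π x (low T k) := πZ_coe x (low T k)
    rw [map_add, hRe, hc'R, hk]
    change T.R u * T.π x (low T k) +
      T.R ((T.Δ x - u) * (∑ j, F.b j * a j + c)) * T.π x (low T k) = _
    rw [map_mul, mul_assoc, hspan k, map_sub, sub_mul, ρ_mul_π]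
    abel
  · have h1 : ∑ k, C k = F.E α W + ∑ k, c' k := by
      rw [← hEW, ← Finset.sum_add_distrib]
    have hEWm : F.E α W ∈ T.Cor x x 0 := hE _ hW
    have hcs : ∑ k, c' k ∈ T.CorN N x x 0 := Submodule.sum_mem _ fun k _ => hc' k
    have hCs : ∑ k, C k ∈ T.Cor x x 0 := Submodule.sum_mem _ fun k _ => hC k
    have hst : ∀ z, z ∈ T.Cor x x 0 → star z ∈ T.Cor x x 0 := fun z hz => cor_star hz rfl
    have h2 : star (∑ k, C k) * (∑ k, C k) - star (F.E α W) * F.E α W ∈ T.CorN N x x 0 := by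
      have h3 : star (∑ k, C k) * (∑ k, C k) - star (F.E α W) * F.E α W =
          star (∑ k, C k) * (∑ k, c' k) + star (∑ k, c' k) * F.E α W := by
        rw [h1, star_add]
        noncomm_ring
      rw [h3]
      exact Submodule.add_mem _ (mul_corN (hst _ hCs) hcs (add_zero 0))
        (corN_mul (corN_star hcs rfl) hEWm (add_zero 0))
    have h4 := pow_sub_pow_corN (cor_mul (hst _ hEWm) hEWm (add_zero 0))
      (cor_mul (hst _ hCs) hCs (add_zero 0)) h2 n
    have h5 : (star (F.E α W) * F.E α W) ^ (n + 1) ∈ T.CorN N x x 0 := by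
      rw [F.star_E_mul_E, hYpow]
      exact F.S_mem hα fun j k => hYN j k (hn j k)
    have h6 := Submodule.add_mem _ h4 h5
    rwa [sub_add_cancel] at h6

end Frame

end Cycles

end SDCK
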